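import Mathlib

/-!
# Lower bounds for the absolute values of the cyclotomic polynomials off the unit circle
-/

set_option autoImplicit false

namespace Pool.Agent.V1138.FZ

open Polynomial

theorem prod_low {r : ℝ} (h0 : 0 ≤ r) (h1 : r < 1) : ∃ c : ℝ, 0 < c ∧ ∀ S : Finset ℕ,
    (∀ b ∈ S, 0 < b) → c ≤ ∏ b ∈ S, (1 - r ^ b) := by
  refine ⟨Real.exp (-((1 - r)⁻¹ * (1 - r)⁻¹)), Real.exp_pos _, fun S hS => ?_⟩
  have h3 : 0 < 1 - r := by linarith
  have h2 : ∀ b ∈ S, Real.exp (-((1 - r)⁻¹ * r ^ b)) ≤ 1 - r ^ b := by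
    intro b hb
    have hb1 : r ^ b ≤ r := by
      calc r ^ b ≤ r ^ 1 := pow_le_pow_of_le_one h0 h1.le (hS b hb)
        _ = r := pow_one r
    have hb0 : 0 ≤ r ^ b := pow_nonneg h0 b
    have h4 : 0 < 1 - r ^ b := by linarith
    have h5 : (1 - r ^ b)⁻¹ ≤ Real.exp ((1 - r)⁻¹ * r ^ b) := by
      have h6 := Real.add_one_le_exp ((1 - r)⁻¹ * r ^ b)
      refine le_trans ?_ h6
      have h7 : (1 - r ^ b)⁻¹ = (1 - r ^ b)⁻¹ * r ^ b + 1 := by
        field_simp
        ring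
      rw [h7]
      have h8 : (1 - r ^ b)⁻¹ ≤ (1 - r)⁻¹ := inv_anti₀ h3 (by linarith)
      nlinarith
    rw [Real.exp_neg]
    rw [inv_le_comm₀ (Real.exp_pos _) h4]
    exact h5
  calc Real.exp (-((1 - r)⁻¹ * (1 - r)⁻¹)) ≤ Real.exp (∑ b ∈ S, -((1 - r)⁻¹ * r ^ b)) := by
        apply Real.exp_le_exp.2
        rw [Finset.sum_neg_distrib, ← Finset.mul_sum, neg_le_neg_iff]
        refine mul_le_mul_of_nonneg_left ?_ (inv_nonneg.2 h3.le)
        rw [← tsum_geometric_of_lt_one h0 h1]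
        exact (summable_geometric_of_lt_one h0 h1).sum_le_tsum S fun i _ => pow_nonneg h0 i
    _ = ∏ b ∈ S, Real.exp (-((1 - r)⁻¹ * r ^ b)) := Real.exp_sum _ _
    _ ≤ ∏ b ∈ S, (1 - r ^ b) :=
        Finset.prod_le_prod (fun _ _ => (Real.exp_pos _).le) h2

theorem cyc_moebius {x : ℂ} (hx : ∀ n : ℕ, 0 < n → x ^ n ≠ 1) (n : ℕ) (hn : 0 < n) :
    eval x (cyclotomic n ℂ) = ∏ i ∈ n.divisorsAntidiagonal,
      (x ^ i.2 - 1) ^ ArithmeticFunction.moebius i.1 := by
  have h1 : ∀ n : ℕ, 0 < n → ∏ i ∈ n.divisors, eval x (cyclotomic i ℂ) = x ^ n - 1 := by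
    intro n hn
    rw [← eval_prod, prod_cyclotomic_eq_X_pow_sub_one hn]
    simp
  have h2 : ∀ n : ℕ, 0 < n → x ^ n - 1 ≠ 0 := fun n hn => sub_ne_zero.2 (hx n hn)
  have h3 : ∀ n : ℕ, 0 < n → eval x (cyclotomic n ℂ) ≠ 0 := by
    intro n hn h0
    apply h2 n hn
    rw [← h1 n hn]
    exact Finset.prod_eq_zero (Nat.mem_divisors_self n hn.ne') h0
  exact ((ArithmeticFunction.prod_eq_iff_prod_pow_moebius_eq_of_nonzero
    (f := fun n => eval x (cyclotomic n ℂ)) (g := fun n => x ^ n - 1) h3 h2).1 h1 n hn).symm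

theorem cyc_low {x : ℂ} (hx : ‖x‖ < 1) : ∃ c : ℝ, 0 < c ∧ ∀ n : ℕ, 0 < n →
    c ≤ ‖eval x (cyclotomic n ℂ)‖ := by
  obtain ⟨c, hc, hS⟩ := prod_low (norm_nonneg x) hx
  refine ⟨c, hc, fun n hn => ?_⟩
  have hpow : ∀ n : ℕ, 0 < n → ‖x‖ ^ n < 1 := fun n hn => pow_lt_one₀ (norm_nonneg x) hx hn.ne'
  have hx1 : ∀ n : ℕ, 0 < n → x ^ n ≠ 1 := by
    intro n hn h
    have h1 := hpow n hn
    rw [← norm_pow, h, norm_one] at h1
    exact lt_irrefl _ h1
  rw [cyc_moebius hx1 n hn, norm_prod]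
  calc c ≤ ∏ b ∈ n.divisors, (1 - ‖x‖ ^ b) := hS _ fun b hb => Nat.pos_of_mem_divisors hb
    _ = ∏ i ∈ n.divisorsAntidiagonal, (1 - ‖x‖ ^ i.2) :=
        (Nat.prod_divisorsAntidiagonal' fun _ b => 1 - ‖x‖ ^ b).symm
    _ ≤ ∏ i ∈ n.divisorsAntidiagonal, ‖(x ^ i.2 - 1) ^ ArithmeticFunction.moebius i.1‖ := by
        refine Finset.prod_le_prod ?_ ?_
        · intro i hi
          have hi2 : 0 < i.2 := by
            rcases Nat.mem_divisorsAntidiagonal.1 hi with ⟨h1, h2⟩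
            rcases Nat.eq_zero_or_pos i.2 with h | h
            · rw [h, mul_zero] at h1
              exact absurd h1.symm h2
            · exact h
          have := hpow _ hi2
          linarith
        · intro i hi
          have hi2 : 0 < i.2 := by
            rcases Nat.mem_divisorsAntidiagonal.1 hi with ⟨h1, h2⟩
            rcases Nat.eq_zero_or_pos i.2 with h | h
            · rw [h, mul_zero] at h1
              exact absurd h1.symm h2
            · exact h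
          have h4 := hpow _ hi2
          have h5 : 0 ≤ ‖x‖ ^ i.2 := pow_nonneg (norm_nonneg x) _
          have h6 : 1 - ‖x‖ ^ i.2 ≤ ‖x ^ i.2 - 1‖ := by
            have h7 := norm_sub_norm_le (1 : ℂ) (x ^ i.2)
            rw [norm_one, norm_pow, norm_sub_rev] at h7
            exact h7
          have h7 : ‖x ^ i.2 - 1‖ ≤ 1 + ‖x‖ ^ i.2 := by
            have h8 := norm_sub_le (x ^ i.2) 1
            rw [norm_one, norm_pow] at h8
            linarith
          rw [norm_zpow]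
          rcases ArithmeticFunction.moebius_eq_or i.1 with h | h | h
          · rw [h, zpow_zero]
            linarith
          · rw [h, zpow_one]
            exact h6
          · rw [h, zpow_neg_one]
            have h9 : 0 < ‖x ^ i.2 - 1‖ := by linarith
            rw [le_inv_comm₀ (by linarith) h9]
            refine h7.trans ?_
            rw [le_inv_comm₀ (by linarith) (by linarith)]
            rw [inv_eq_one_div, le_div_iff₀ (by linarith)]
            nlinarith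

theorem cyc_inv {x : ℂ} (hx : x ≠ 0) (n : ℕ) (hn : 0 < n) :
    ‖eval x (cyclotomic n ℂ)‖ = ‖x‖ ^ n.totient * ‖eval x⁻¹ (cyclotomic n ℂ)‖ := by
  have hprim := Complex.isPrimitiveRoot_exp n hn.ne'
  rw [cyclotomic_eq_prod_X_sub_primitiveRoots hprim, eval_prod, eval_prod, norm_prod, norm_prod,
    ← hprim.card_primitiveRoots, ← Finset.prod_const, ← Finset.prod_mul_distrib]
  have hp : ∀ μ ∈ primitiveRoots n ℂ, IsPrimitiveRoot μ n := fun μ hμ =>
    (mem_primitiveRoots hn).1 hμ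
  refine Finset.prod_bij' (fun μ _ => μ⁻¹) (fun μ _ => μ⁻¹) ?_ ?_ ?_ ?_ ?_
  · intro μ hμ
    exact (mem_primitiveRoots hn).2 (hp μ hμ).inv
  · intro μ hμ
    exact (mem_primitiveRoots hn).2 (hp μ hμ).inv
  · intro μ _
    exact inv_inv μ
  · intro μ _
    exact inv_inv μ
  · intro μ hμ
    have h1 : ‖μ‖ = 1 := (hp μ hμ).norm'_eq_one hn.ne'
    have hμ0 : μ ≠ 0 := (hp μ hμ).ne_zero hn.ne'
    rw [eval_sub, eval_X, eval_C, eval_sub, eval_X, eval_C, ← norm_mul]
    have h2 : x * (x⁻¹ - μ⁻¹) = -(μ⁻¹ * (x - μ)) := by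
      field_simp
      ring
    rw [h2, norm_neg, norm_mul, norm_inv, h1, inv_one, one_mul]

/-- The absolute value of the `n`-th cyclotomic polynomial at `x` off the unit circle is at least
`c max (1, |x|) ^ φ(n)`. -/
theorem cyc_arch {x : ℂ} (hx : ‖x‖ ≠ 1) : ∃ c : ℝ, 0 < c ∧ ∀ n : ℕ, 0 < n →
    c * max 1 ‖x‖ ^ n.totient ≤ ‖eval x (cyclotomic n ℂ)‖ := by
  rcases lt_or_gt_of_ne hx with h | h
  · obtain ⟨c, hc, h1⟩ := cyc_low h
    refine ⟨c, hc, fun n hn => ?_⟩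
    rw [max_eq_left h.le, one_pow, mul_one]
    exact h1 n hn
  · have hx0 : x ≠ 0 := by
      rintro rfl
      rw [norm_zero] at h
      linarith
    have h2 : ‖x⁻¹‖ < 1 := by
      rw [norm_inv]
      exact inv_lt_one_of_one_lt₀ h
    obtain ⟨c, hc, h1⟩ := cyc_low h2
    refine ⟨c, hc, fun n hn => ?_⟩
    rw [max_eq_right h.le, cyc_inv hx0 n hn, mul_comm]
    exact mul_le_mul_of_nonneg_left (h1 n hn) (pow_nonneg (norm_nonneg x) _)

end Pool.Agent.V1138.FZ
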