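import Mathlib

/-!
# Lower bounds for the non-archimedean absolute values of the cyclotomic polynomials
-/

set_option autoImplicit false

namespace Pool.Agent.V1138.FZ

open Polynomial

/-- A zero of the `n`-th cyclotomic polynomial in a ring where no prime number vanishes has order
`n`. -/
theorem order_eq {R : Type*} [CommRing R] {b : R} {n : ℕ} (hn : 0 < n)
    (h : eval b (cyclotomic n R) = 0) (hl : ∀ l : ℕ, l.Prime → (l : R) ≠ 0) : orderOf b = n := by
  have hbn : b ^ n = 1 := by
    obtain ⟨q, hq⟩ := cyclotomic.dvd_X_pow_sub_one n R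
    have h1 := congrArg (eval b) hq
    rw [eval_sub, eval_pow, eval_X, eval_one, eval_mul, h, zero_mul] at h1
    exact sub_eq_zero.1 h1
  obtain ⟨s, hs⟩ := orderOf_dvd_of_pow_eq_one hbn
  by_contra hne
  have hs1 : s ≠ 1 := by
    rintro rfl
    rw [mul_one] at hs
    exact hne hs.symm
  have hE : 0 < orderOf b := by
    rcases Nat.eq_zero_or_pos (orderOf b) with h0 | h0
    · rw [h0, zero_mul] at hs
      omega
    · exact h0
  obtain ⟨l, hl1, hls⟩ := Nat.exists_prime_and_dvd hs1
  obtain ⟨e, he⟩ := hls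
  have hd : n = orderOf b * e * l := by
    rw [hs, he]
    ring
  set d : ℕ := orderOf b * e with hdd
  have hd0 : 0 < d := by
    rcases Nat.eq_zero_or_pos d with h0 | h0
    · rw [h0, zero_mul] at hd
      omega
    · exact h0
  have hprop : d ∈ n.properDivisors := by
    rw [Nat.mem_properDivisors]
    refine ⟨⟨l, hd⟩, ?_⟩
    rw [hd]
    nlinarith [hl1.two_le]
  have hbd : b ^ d = 1 := by
    rw [hdd, pow_mul, pow_orderOf_eq_one, one_pow]
  have h2 := X_pow_sub_one_mul_cyclotomic_dvd_X_pow_sub_one_of_dvd ℤ hprop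
  have h3 : (X : ℤ[X]) ^ n - 1 = (X ^ d - 1) * ∑ i ∈ Finset.range l, (X ^ d) ^ i := by
    rw [mul_geom_sum, ← pow_mul, hd]
  rw [h3] at h2
  have h4 : (X : ℤ[X]) ^ d - 1 ≠ 0 := by
    rw [← C_1]
    exact X_pow_sub_C_ne_zero hd0 1
  have h5 := (mul_dvd_mul_iff_left h4).1 h2
  obtain ⟨q, hq⟩ := h5
  have h6 := congrArg (fun P : ℤ[X] => eval b (P.map (Int.castRingHom R))) hq
  simp only [Polynomial.map_mul, map_cyclotomic, eval_mul, h, zero_mul] at h6
  rw [Polynomial.map_sum, eval_finsetSum] at h6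
  simp only [Polynomial.map_pow, map_X, eval_pow, eval_X, hbd, one_pow, Finset.sum_const,
    Finset.card_range, nsmul_eq_mul, mul_one] at h6
  exact hl l hl1 h6

section

variable {K : Type*} [NormedField K] [IsUltrametricDist K]

/-- the ring of integers -/
def OO (K : Type*) [NormedField K] [IsUltrametricDist K] : Subring K where
  carrier := {x | ‖x‖ ≤ 1}
  mul_mem' := by
    intro a b ha hb
    show ‖a * b‖ ≤ 1
    rw [norm_mul]
    exact mul_le_one₀ ha (norm_nonneg _) hb
  one_mem' := by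
    show ‖(1 : K)‖ ≤ 1
    rw [norm_one]
  add_mem' := by
    intro a b ha hb
    exact (IsUltrametricDist.norm_add_le_max a b).trans (max_le ha hb)
  zero_mem' := by
    show ‖(0 : K)‖ ≤ 1
    rw [norm_zero]
    exact zero_le_one
  neg_mem' := by
    intro a ha
    show ‖-a‖ ≤ 1
    rw [norm_neg]
    exact ha

/-- the ideal of the elements of absolute value less than `ε` -/
def II (K : Type*) [NormedField K] [IsUltrametricDist K] (ε : ℝ) (hε : 0 < ε) : Ideal (OO K) where
  carrier := {x | ‖(x : K)‖ < ε}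
  add_mem' := by
    intro a b ha hb
    exact lt_of_le_of_lt (IsUltrametricDist.norm_add_le_max (a : K) b) (max_lt ha hb)
  zero_mem' := by
    show ‖((0 : OO K) : K)‖ < ε
    rw [ZeroMemClass.coe_zero, norm_zero]
    exact hε
  smul_mem' := by
    intro a b hb
    show ‖((a * b : OO K) : K)‖ < ε
    rw [Subring.coe_mul, norm_mul]
    have ha : ‖(a : K)‖ ≤ 1 := a.2
    have hb' : ‖(b : K)‖ < ε := hb
    calc ‖(a : K)‖ * ‖(b : K)‖ ≤ 1 * ‖(b : K)‖ := mul_le_mul_of_nonneg_right ha (norm_nonneg _)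
      _ = ‖(b : K)‖ := one_mul _
      _ < ε := hb'

theorem small_order {ε : ℝ} (hε : 0 < ε) (hl : ∀ l : ℕ, l.Prime → ε ≤ ‖(l : K)‖) (β : OO K)
    {n : ℕ} (hn : 0 < n) (h : ‖eval (β : K) (cyclotomic n K)‖ < ε) :
    orderOf (Ideal.Quotient.mk (II K ε hε) β) = n := by
  refine order_eq hn ?_ ?_
  · rw [← map_cyclotomic n (Ideal.Quotient.mk (II K ε hε)), eval_map, eval₂_at_apply,
      Ideal.Quotient.eq_zero_iff_mem]
    show ‖((eval β (cyclotomic n (OO K)) : OO K) : K)‖ < ε
    have h1 : ((eval β (cyclotomic n (OO K)) : OO K) : K) = eval (β : K) (cyclotomic n K) := by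
      have h2 := eval₂_at_apply (p := cyclotomic n (OO K)) (OO K).subtype β
      rw [← eval_map, map_cyclotomic] at h2
      exact h2.symm
    rw [h1]
    exact h
  · intro l hl1 h0
    rw [← map_natCast (Ideal.Quotient.mk (II K ε hε)), Ideal.Quotient.eq_zero_iff_mem] at h0
    have h1 : ‖((l : OO K) : K)‖ < ε := h0
    have h2 : ((l : OO K) : K) = (l : K) := by norm_cast
    rw [h2] at h1
    exact absurd (hl l hl1) (not_le.2 h1)

variable [CharZero K] [IsAlgClosed K]

theorem norm_mprod (s : Multiset K) : ‖s.prod‖ = (s.map norm).prod :=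
  map_multiset_prod (normHom : K →*₀ ℝ) s

theorem cyc_large {β : K} (hβ : 1 < ‖β‖) (n : ℕ) (hn : 0 < n) :
    ‖eval β (cyclotomic n K)‖ = ‖β‖ ^ n.totient := by
  have hs : (cyclotomic n K).Splits := IsAlgClosed.splits _
  rw [hs.eval_eq_prod_roots_of_monic (cyclotomic.monic n K), ← natDegree_cyclotomic n K]
  rw [norm_mprod, Multiset.map_map]
  simp only [Function.comp_def]
  have h1 : ∀ z ∈ (cyclotomic n K).roots, ‖β - z‖ = ‖β‖ := by
    intro z hz
    have hz1 : z ^ n = 1 := by
      have h2 := (mem_roots'.1 hz).2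
      obtain ⟨q, hq⟩ := cyclotomic.dvd_X_pow_sub_one n K
      have h3 := congrArg (eval z) hq
      rw [eval_sub, eval_pow, eval_X, eval_one, eval_mul, h2, zero_mul] at h3
      exact sub_eq_zero.1 h3
    have hz2 : ‖z‖ = 1 := by
      have h2 := congrArg norm hz1
      rw [norm_pow, norm_one] at h2
      exact (pow_eq_one_iff_of_nonneg (norm_nonneg z) hn.ne').1 h2
    have h3 : ‖β - z‖ ≤ ‖β‖ := by
      have h5 := IsUltrametricDist.norm_add_le_max β (-z)
      rw [← sub_eq_add_neg, norm_neg, hz2, max_eq_left hβ.le] at h5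
      exact h5
    have h4 : ‖β‖ ≤ ‖β - z‖ := by
      have h5 := IsUltrametricDist.norm_add_le_max (β - z) z
      rw [sub_add_cancel, hz2] at h5
      rcases le_max_iff.1 h5 with h6 | h6
      · exact h6
      · linarith
    exact le_antisymm h3 h4
  rw [Multiset.map_congr rfl (g := fun _ => ‖β‖) h1, Multiset.map_const', Multiset.prod_replicate,
    hs.natDegree_eq_card_roots]

theorem cyc_ultra {ε : ℝ} (hε : 0 < ε) (hε1 : ε ≤ 1) (hl : ∀ l : ℕ, l.Prime → ε ≤ ‖(l : K)‖)
    (β : K) : ∃ N : ℕ, 0 < N ∧ ∀ n : ℕ, N ≤ n →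
      ε * max 1 ‖β‖ ^ n.totient ≤ ‖eval β (cyclotomic n K)‖ := by
  rcases lt_or_ge 1 ‖β‖ with h | h
  · refine ⟨1, one_pos, fun n hn => ?_⟩
    rw [cyc_large h n (by omega), max_eq_right h.le]
    exact mul_le_of_le_one_left (pow_nonneg (norm_nonneg _) _) hε1
  · refine ⟨orderOf (Ideal.Quotient.mk (II K ε hε) ⟨β, h⟩) + 1, by omega, fun n hn => ?_⟩
    rw [max_eq_left h, one_pow, mul_one]
    by_contra hc
    push Not at hc
    have h1 := small_order hε hl ⟨β, h⟩ (n := n) (by omega) hc
    omega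

end

section

variable {K : Type*} [NormedField K] [CharZero K] [IsAlgClosed K]

theorem norm_mprod' (s : Multiset K) : ‖s.prod‖ = (s.map norm).prod :=
  map_multiset_prod (normHom : K →*₀ ℝ) s

theorem res_norm (h : ℤ[X]) (n : ℕ) : ‖((resultant h (cyclotomic n ℤ) : ℤ) : K)‖ =
    ‖(h.map (Int.castRingHom K)).leadingCoeff‖ ^ n.totient *
      ((h.map (Int.castRingHom K)).roots.map fun β => ‖eval β (cyclotomic n K)‖).prod := by
  have h1 : ((resultant h (cyclotomic n ℤ) : ℤ) : K) =
      resultant (h.map (Int.castRingHom K)) (cyclotomic n K)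
        (h.map (Int.castRingHom K)).natDegree n.totient := by
    rw [← map_cyclotomic n (Int.castRingHom K), natDegree_map_eq_of_injective
      (Int.castRingHom K).injective_int, resultant_map_map, natDegree_cyclotomic]
    rfl
  rw [h1, resultant_eq_prod_eval _ _ _ (natDegree_cyclotomic n K).le (IsAlgClosed.splits _),
    norm_mul, norm_pow, norm_mprod', Multiset.map_map]
  rfl

theorem res_low (h : ℤ[X]) (n : ℕ) (ε : K → ℝ) (hε : ∀ β, 0 ≤ ε β)
    (hl : ∀ β ∈ (h.map (Int.castRingHom K)).roots,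
      ε β * max 1 ‖β‖ ^ n.totient ≤ ‖eval β (cyclotomic n K)‖) :
    ((h.map (Int.castRingHom K)).roots.map ε).prod *
      (‖(h.map (Int.castRingHom K)).leadingCoeff‖ *
        ((h.map (Int.castRingHom K)).roots.map fun β => max 1 ‖β‖).prod) ^ n.totient ≤
    ‖((resultant h (cyclotomic n ℤ) : ℤ) : K)‖ := by
  rw [res_norm, mul_pow, mul_left_comm]
  refine mul_le_mul_of_nonneg_left ?_ (pow_nonneg (norm_nonneg _) _)
  rw [← Multiset.prod_map_pow, ← Multiset.prod_map_mul]
  refine Multiset.prod_map_le_prod_map₀ _ _ ?_ ?_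
  · intro β _
    exact mul_nonneg (hε β) (pow_nonneg (le_trans zero_le_one (le_max_left _ _)) _)
  · exact hl

end

end Pool.Agent.V1138.FZ
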