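import Mathlib
import Pool.Agent.V1138.FZ.Arch
import Pool.Agent.V1138.FZ.Ultra
import Pool.Agent.Y239.RP.Tot

/-!
# The resultants of the cyclotomic polynomials and a fixed polynomial have large prime factors
-/

set_option autoImplicit false

namespace Pool.Agent.V1138.FZ

open Polynomial

section

variable (p : ℕ) [hp : Fact p.Prime]

theorem norm_int (z : ℤ) : ‖(z : PadicAlgCl p)‖ = ‖(z : ℚ_[p])‖ := by
  have h1 := PadicAlgCl.norm_extends p (z : ℚ_[p])
  rw [← h1]
  simp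

theorem norm_prime_ge (l : ℕ) (hl : l.Prime) : (p : ℝ)⁻¹ ≤ ‖(l : PadicAlgCl p)‖ := by
  have h1 := norm_int p (l : ℤ)
  rw [Int.cast_natCast, Int.cast_natCast] at h1
  rw [h1]
  by_cases h : l = p
  · subst h
    rw [Padic.norm_p]
  · have h2 : ‖((l : ℕ) : ℚ_[p])‖ = 1 := by
      rw [Padic.norm_natCast_eq_one_iff]
      exact (Nat.coprime_primes hp.out hl).2 fun h' => h h'.symm
    rw [h2]
    exact inv_le_one_of_one_le₀ (by exact_mod_cast hp.out.one_lt.le)

/-- the norm as an absolute value -/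
noncomputable def av : AbsoluteValue (PadicAlgCl p) ℝ := NormedField.toAbsoluteValue _

theorem gauss_le (s : Multiset (PadicAlgCl p)) :
    ((s.map fun β => X - C β).prod).gaussNorm (av p) 1 ≤ (s.map fun β => max 1 ‖β‖).prod := by
  have hna : IsNonarchimedean (av p) := PadicAlgCl.isNonarchimedean p
  induction s using Multiset.induction_on with
  | empty =>
    rw [Multiset.map_zero, Multiset.prod_zero, Multiset.map_zero, Multiset.prod_zero,
      ← C_1, gaussNorm_C]
    exact (map_one _).le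
  | cons β s ih =>
    rw [Multiset.map_cons, Multiset.prod_cons, Multiset.map_cons, Multiset.prod_cons]
    refine (gaussNorm_mul_le (av p) hna _ _ zero_le_one).trans ?_
    refine mul_le_mul ?_ ih (gaussNorm_nonneg _ _ zero_le_one)
      (le_trans zero_le_one (le_max_left _ _))
    obtain ⟨i, hi⟩ := exists_eq_gaussNorm (p := X - C β) (v := av p) (c := 1)
    rw [hi, one_pow, mul_one]
    show ‖(X - C β).coeff i‖ ≤ _
    rcases i with _ | _ | i
    · rw [coeff_sub, coeff_X_zero, coeff_C_zero, zero_sub, norm_neg]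
      exact le_max_right _ _
    · rw [coeff_sub, coeff_X_one, coeff_C_succ, sub_zero, norm_one]
      exact le_max_left _ _
    · rw [coeff_sub, coeff_X_of_ne_one (by omega), coeff_C_succ, sub_zero, norm_zero]
      exact le_trans zero_le_one (le_max_left _ _)

theorem gauss_prim {h : ℤ[X]} (hh : h.IsPrimitive) :
    1 ≤ ‖(h.map (Int.castRingHom (PadicAlgCl p))).leadingCoeff‖ *
      ((h.map (Int.castRingHom (PadicAlgCl p))).roots.map fun β => max 1 ‖β‖).prod := by
  have hna : IsNonarchimedean (av p) := PadicAlgCl.isNonarchimedean p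
  obtain ⟨i, hi⟩ : ∃ i, ¬ (p : ℤ) ∣ h.coeff i := by
    by_contra hc
    push Not at hc
    have h1 := hh (p : ℤ) ((C_dvd_iff_dvd_coeff _ _).2 hc)
    rw [Int.isUnit_iff] at h1
    have := hp.out.two_le
    omega
  have h1 : 1 ≤ (h.map (Int.castRingHom (PadicAlgCl p))).gaussNorm (av p) 1 := by
    have h2 := le_gaussNorm (av p) (h.map (Int.castRingHom (PadicAlgCl p))) zero_le_one i
    rw [one_pow, mul_one, coeff_map] at h2
    refine le_trans ?_ h2
    show 1 ≤ ‖((h.coeff i : ℤ) : PadicAlgCl p)‖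
    rw [norm_int]
    have h3 : ‖((h.coeff i : ℤ) : ℚ_[p])‖ = 1 := by
      rw [Padic.norm_intCast_eq_one_iff]
      rw [Int.isCoprime_iff_gcd_eq_one, Int.gcd_comm]
      exact (Nat.Prime.coprime_iff_not_dvd hp.out).2 fun h => hi (Int.natCast_dvd.2 h)
    rw [h3]
  refine h1.trans ?_
  have hs : (h.map (Int.castRingHom (PadicAlgCl p))).Splits := IsAlgClosed.splits _
  conv_lhs => rw [hs.eq_prod_roots]
  refine (gaussNorm_mul_le (av p) hna _ _ zero_le_one).trans ?_
  rw [gaussNorm_C]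
  exact mul_le_mul_of_nonneg_left (gauss_le p _) ((av p).nonneg _)

theorem padic_part {h : ℤ[X]} (hh : h.IsPrimitive) : ∃ N : ℕ, ∀ n : ℕ, N ≤ n →
    ¬ ((p ^ (h.natDegree + 1) : ℕ) : ℤ) ∣ resultant h (cyclotomic n ℤ) := by
  have hp0 : 0 < (p : ℝ) := by exact_mod_cast hp.out.pos
  have hε : 0 < (p : ℝ)⁻¹ := inv_pos.2 hp0
  have hε1 : (p : ℝ)⁻¹ ≤ 1 := inv_le_one_of_one_le₀ (by exact_mod_cast hp.out.one_lt.le)
  choose N hN0 hN using fun β : PadicAlgCl p => cyc_ultra hε hε1 (norm_prime_ge p) β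
  classical
  refine ⟨(h.map (Int.castRingHom (PadicAlgCl p))).roots.toFinset.sup N, fun n hn hd => ?_⟩
  have h1 := res_low (K := PadicAlgCl p) h n (fun _ => (p : ℝ)⁻¹) (fun _ => hε.le) fun β hβ =>
    hN β n ((Finset.le_sup (Multiset.mem_toFinset.2 hβ)).trans hn)
  have hs : (h.map (Int.castRingHom (PadicAlgCl p))).Splits := IsAlgClosed.splits _
  rw [Multiset.map_const', Multiset.prod_replicate, ← hs.natDegree_eq_card_roots,
    natDegree_map_eq_of_injective (Int.castRingHom _).injective_int, norm_int] at h1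
  have h2 : (p : ℝ)⁻¹ ^ h.natDegree ≤ ‖((resultant h (cyclotomic n ℤ) : ℤ) : ℚ_[p])‖ := by
    refine le_trans ?_ h1
    refine le_mul_of_one_le_right (pow_nonneg hε.le _) ?_
    exact one_le_pow₀ (gauss_prim p hh)
  have h3 := (Padic.norm_int_le_pow_iff_dvd (p := p) (resultant h (cyclotomic n ℤ))
    (h.natDegree + 1)).2 (by exact_mod_cast hd)
  have h4 := h2.trans h3
  rw [zpow_neg, zpow_natCast, ← inv_pow, pow_succ] at h4
  have h5 : (p : ℝ)⁻¹ < 1 := inv_lt_one_of_one_lt₀ (by exact_mod_cast hp.out.one_lt)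
  have h6 : 0 < (p : ℝ)⁻¹ ^ h.natDegree := pow_pos hε _
  nlinarith

end

theorem totient_large (B : ℕ) : ∃ N : ℕ, 0 < N ∧ ∀ n : ℕ, N ≤ n → B ≤ n.totient := by
  obtain ⟨N, hN⟩ := Pool.Agent.Y239.RP.Tot.tot B
  refine ⟨N + 1, by omega, fun n hn => ?_⟩
  have h1 := hN n (by omega)
  have h2 : (1 : ℝ) ≤ Real.sqrt n := by
    rw [Real.one_le_sqrt]
    exact_mod_cast (by omega : 1 ≤ n)
  have h3 : (B : ℝ) ≤ (n.totient : ℝ) := by
    refine le_trans ?_ h1
    exact le_mul_of_one_le_right (Nat.cast_nonneg B) h2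
  exact_mod_cast h3

theorem arch_part {h : ℤ[X]} (h0 : h ≠ 0) (hcirc : ∀ x : ℂ, ‖x‖ = 1 → aeval x h ≠ 0)
    (hroot : ∃ x : ℂ, x ≠ 0 ∧ aeval x h = 0) (B : ℝ) : ∃ N : ℕ, ∀ n : ℕ, N ≤ n →
      B < ‖((resultant h (cyclotomic n ℤ) : ℤ) : ℂ)‖ := by
  classical
  set H : ℂ[X] := h.map (Int.castRingHom ℂ) with hH
  have hH0 : H ≠ 0 := (Polynomial.map_ne_zero_iff (Int.castRingHom ℂ).injective_int).2 h0
  have hev : ∀ x, aeval x h = eval x H := by
    intro x
    rw [hH, eval_map, aeval_def]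
    rfl
  have hc : ∀ β : ℂ, ∃ c : ℝ, 0 < c ∧ (β ∈ H.roots → ∀ n : ℕ, 0 < n →
      c * max 1 ‖β‖ ^ n.totient ≤ ‖eval β (cyclotomic n ℂ)‖) := by
    intro β
    by_cases hβ : β ∈ H.roots
    · have h1 : ‖β‖ ≠ 1 := by
        intro h2
        apply hcirc β h2
        rw [hev]
        exact (mem_roots'.1 hβ).2
      obtain ⟨c, hc, h2⟩ := cyc_arch h1
      exact ⟨c, hc, fun _ => h2⟩
    · exact ⟨1, one_pos, fun h => absurd h hβ⟩
  choose c hcpos hcl using hc
  set M : ℝ := ‖H.leadingCoeff‖ * (H.roots.map fun β => max 1 ‖β‖).prod with hM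
  have hMm : M = H.mahlerMeasure := (mahlerMeasure_eq_leadingCoeff_mul_prod_roots H).symm
  have hM1 : 1 < M := by
    refine lt_of_le_of_ne ?_ ?_
    · rw [hMm]
      exact one_le_mahlerMeasure_of_ne_zero h0
    · intro h1
      rw [hMm] at h1
      obtain ⟨x, hx0, hx⟩ := hroot
      have hx1 : x ∈ h.aroots ℂ := mem_aroots.2 ⟨h0, hx⟩
      obtain ⟨n, hn, hxn⟩ := pow_eq_one_of_mahlerMeasure_eq_one h1.symm hx0 hx1
      apply hcirc x _ hx
      have h2 := congrArg norm hxn
      rw [norm_pow, norm_one] at h2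
      exact (pow_eq_one_iff_of_nonneg (norm_nonneg x) hn.ne').1 h2
  set E : ℝ := (H.roots.map c).prod with hE
  have hE0 : 0 < E := by
    refine Multiset.prod_pos fun a ha => ?_
    obtain ⟨β, _, rfl⟩ := Multiset.mem_map.1 ha
    exact hcpos β
  obtain ⟨k, hk⟩ := pow_unbounded_of_one_lt (B / E) hM1
  obtain ⟨N, hN0, hN⟩ := totient_large k
  refine ⟨N, fun n hn => ?_⟩
  have h1 := res_low (K := ℂ) h n c (fun β => (hcpos β).le) fun β hβ =>
    hcl β hβ n (by omega)
  rw [← hH] at h1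
  refine lt_of_lt_of_le ?_ h1
  rw [← hE, ← hM]
  rw [div_lt_iff₀ hE0] at hk
  calc B < M ^ k * E := hk
    _ ≤ M ^ n.totient * E := mul_le_mul_of_nonneg_right (pow_le_pow_right₀ hM1.le (hN n hn)) hE0.le
    _ = E * M ^ n.totient := mul_comm _ _

/-- If the primitive polynomial `h` has no zeros on the unit circle and a zero different from `0`
then the resultant of `h` and the `n`-th cyclotomic polynomial has a large prime factor for all large
`n`. -/
theorem large_prime {h : ℤ[X]} (hh : h.IsPrimitive) (hcirc : ∀ x : ℂ, ‖x‖ = 1 → aeval x h ≠ 0)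
    (hroot : ∃ x : ℂ, x ≠ 0 ∧ aeval x h = 0) (D : ℕ) : ∃ N : ℕ, ∀ n : ℕ, N ≤ n →
      ∃ p : ℕ, p.Prime ∧ D < p ∧ (p : ℤ) ∣ resultant h (cyclotomic n ℤ) := by
  classical
  have h0 : h ≠ 0 := hh.ne_zero
  obtain ⟨N₁, hN₁⟩ := arch_part h0 hcirc hroot ((D.factorial : ℝ) ^ h.natDegree)
  have hp : ∀ p : ℕ, ∃ N : ℕ, p.Prime → ∀ n : ℕ, N ≤ n →
      ¬ ((p ^ (h.natDegree + 1) : ℕ) : ℤ) ∣ resultant h (cyclotomic n ℤ) := by
    intro p
    by_cases hp : p.Prime
    · have : Fact p.Prime := ⟨hp⟩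
      obtain ⟨N, hN⟩ := padic_part p hh
      exact ⟨N, fun _ => hN⟩
    · exact ⟨0, fun h => absurd h hp⟩
  choose N hN using hp
  refine ⟨max N₁ ((Finset.range (D + 1)).sup N), fun n hn => ?_⟩
  by_contra hc
  push Not at hc
  have h1 := hN₁ n (le_trans (le_max_left _ _) hn)
  set R : ℤ := resultant h (cyclotomic n ℤ) with hR
  have hR0 : R ≠ 0 := by
    intro h2
    rw [h2, Int.cast_zero, norm_zero] at h1
    exact absurd h1 (not_lt.2 (by positivity))
  have hdvd : R.natAbs ∣ D.factorial ^ h.natDegree := by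
    refine (Nat.factorization_prime_le_iff_dvd (Int.natAbs_ne_zero.2 hR0)
      (pow_ne_zero _ (Nat.factorial_ne_zero D))).1 fun p hpp => ?_
    by_cases hpD : p ≤ D
    · have h3 := hN p hpp n (le_trans (Finset.le_sup (Finset.mem_range.2 (by omega)))
        (le_trans (le_max_right _ _) hn))
      have h4 : R.natAbs.factorization p ≤ h.natDegree := by
        by_contra h5
        push Not at h5
        apply h3
        rw [← hR]
        exact Int.natCast_dvd.2 ((hpp.pow_dvd_iff_le_factorization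
          (Int.natAbs_ne_zero.2 hR0)).2 h5)
      refine h4.trans ?_
      rw [Nat.factorization_pow, Finsupp.smul_apply, smul_eq_mul]
      refine Nat.le_mul_of_pos_right _ ?_
      exact hpp.factorization_pos_of_dvd (Nat.factorial_ne_zero D)
        ((hpp.dvd_factorial).2 hpD)
    · have h3 : ¬ p ∣ R.natAbs := fun h4 => hc p hpp (by omega) (Int.natCast_dvd.2 h4)
      rw [Nat.factorization_eq_zero_of_not_dvd h3]
      exact Nat.zero_le _
  have h2 := Nat.le_of_dvd (pow_pos (Nat.factorial_pos D) _) hdvd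
  have h3 : ‖((R : ℤ) : ℂ)‖ = (R.natAbs : ℝ) := by
    rw [Complex.norm_intCast]
    rw [Nat.cast_natAbs, Int.cast_abs]
  rw [h3] at h1
  have h4 : (R.natAbs : ℝ) ≤ (D.factorial : ℝ) ^ h.natDegree := by exact_mod_cast h2
  linarith

end Pool.Agent.V1138.FZ
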