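import Mathlib
import Pool.Agent.V1138.FZ.Res
import Pool.Agent.Y152.BD.Nv

/-!
# Values of a rational function at roots of unity: the values of the minimal polynomials have large
prime factors
-/

set_option autoImplicit false

namespace Pool.Agent.V1138.FZ

open Polynomial
open Pool.Agent.Y152.BD (Nv Nv_map)

/-- Coprime polynomials with integral coefficients generate an ideal which contains a nonzero
integer. -/
theorem bez {P Q : ℤ[X]} (h : IsCoprime (P.map (Int.castRingHom ℚ)) (Q.map (Int.castRingHom ℚ))) :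
    ∃ (a b : ℤ[X]) (ρ : ℤ), ρ ≠ 0 ∧ a * P + b * Q = C ρ := by
  obtain ⟨a, b, hab⟩ := h
  obtain ⟨r, hr, h1⟩ := IsLocalization.integerNormalization_spec (nonZeroDivisors ℤ) a
  obtain ⟨s, hs, h2⟩ := IsLocalization.integerNormalization_spec (nonZeroDivisors ℤ) b
  set A := IsLocalization.integerNormalization (nonZeroDivisors ℤ) a
  set B := IsLocalization.integerNormalization (nonZeroDivisors ℤ) b
  refine ⟨C s * A, C r * B, r * s, mul_ne_zero (nonZeroDivisors.ne_zero hr)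
    (nonZeroDivisors.ne_zero hs), ?_⟩
  apply map_injective (Int.castRingHom ℚ) (Int.castRingHom ℚ).injective_int
  have h1' : A.map (Int.castRingHom ℚ) = C ((r : ℤ) : ℚ) * a := by
    have h3 : A.map (algebraMap ℤ ℚ) = (r : ℤ) • a := h1
    rw [zsmul_eq_mul] at h3
    rw [← algebraMap_int_eq, h3]
    simp
  have h2' : B.map (Int.castRingHom ℚ) = C ((s : ℤ) : ℚ) * b := by
    have h3 : B.map (algebraMap ℤ ℚ) = (s : ℤ) • b := h2
    rw [zsmul_eq_mul] at h3
    rw [← algebraMap_int_eq, h3]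
    simp
  rw [Polynomial.map_add, Polynomial.map_mul, Polynomial.map_mul, Polynomial.map_mul,
    Polynomial.map_mul, h1', h2', map_C, map_C, map_C]
  simp only [eq_intCast, Int.cast_mul, C_mul]
  linear_combination (C (r : ℚ) * C (s : ℚ)) * hab

/-- A prime number which divides the resultant gives a common zero. -/
theorem common_zero {h : ℤ[X]} {n : ℕ} (p : ℕ) [hp : Fact p.Prime]
    (hd : (p : ℤ) ∣ resultant h (cyclotomic n ℤ)) :
    ∃ z : AlgebraicClosure (ZMod p), eval z (cyclotomic n (AlgebraicClosure (ZMod p))) = 0 ∧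
      aeval z h = 0 := by
  set k := AlgebraicClosure (ZMod p)
  have hk : CharP k p := inferInstance
  have h1 : ((resultant h (cyclotomic n ℤ) : ℤ) : k) = 0 := (CharP.intCast_eq_zero_iff k p _).2 hd
  have h2 : resultant (cyclotomic n k) (h.map (Int.castRingHom k)) (cyclotomic n k).natDegree
      h.natDegree = 0 := by
    rw [resultant_comm] at h1
    rw [Int.cast_mul, Int.cast_pow, Int.cast_neg, Int.cast_one] at h1
    have h3 : ((resultant (cyclotomic n ℤ) h : ℤ) : k) = 0 := by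
      rcases mul_eq_zero.1 h1 with h4 | h4
      · exact absurd h4 (pow_ne_zero _ (neg_ne_zero.2 one_ne_zero))
      · exact h4
    have h4 := resultant_map_map (f := cyclotomic n ℤ) (g := h) (m := (cyclotomic n ℤ).natDegree)
      (n := h.natDegree) (Int.castRingHom k)
    rw [map_cyclotomic] at h4
    rw [natDegree_cyclotomic] at h4 ⊢
    rw [h4]
    have h5 : (resultant (cyclotomic n ℤ) h n.totient h.natDegree : ℤ) =
        resultant (cyclotomic n ℤ) h := by rw [natDegree_cyclotomic]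
    rw [h5]
    exact h3
  rw [resultant_eq_prod_eval _ _ _ natDegree_map_le (IsAlgClosed.splits _),
    (cyclotomic.monic n k).leadingCoeff, one_pow, one_mul] at h2
  obtain ⟨z, hz, hz0⟩ := Multiset.mem_map.1 (Multiset.prod_eq_zero_iff.1 h2)
  refine ⟨z, (mem_roots'.1 hz).2, ?_⟩
  rw [← hz0, eval_map, aeval_def]
  rfl

/-- the homogenized composition -/
noncomputable def hcomp (G P Q : ℤ[X]) : ℤ[X] :=
  ∑ i ∈ Finset.range (G.natDegree + 1), C (G.coeff i) * P ^ i * Q ^ (G.natDegree - i)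

theorem aeval_hcomp {A : Type*} [CommRing A] (G P Q : ℤ[X]) (z : A) :
    aeval z (hcomp G P Q) = ∑ i ∈ Finset.range (G.natDegree + 1),
      (G.coeff i : A) * aeval z P ^ i * aeval z Q ^ (G.natDegree - i) := by
  rw [hcomp, map_sum]
  refine Finset.sum_congr rfl fun i _ => ?_
  rw [map_mul, map_mul, map_pow, map_pow, aeval_C]
  rfl

theorem near_k {P Q G h : ℤ[X]} {n : ℕ} (hn : 0 < n) {ζ t : ℂ} (hζ : IsPrimitiveRoot ζ n)
    (hQ : aeval ζ Q ≠ 0) (ht : t = aeval ζ P / aeval ζ Q) (hGt : aeval t G = 0) {a b : ℤ[X]}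
    {ρ : ℤ} (hab : a * P + b * Q = C ρ) (α : ℚ) (hh : h ∣ C α.num * Q - C (α.den : ℤ) * P) (p : ℕ)
    (hp : p.Prime) (hpρ : ¬ (p : ℤ) ∣ ρ) {k : Type} [Field k] [CharP k p] (z : k)
    (hz : eval z (cyclotomic n k) = 0) (hz0 : aeval z h = 0) :
    (p : ℤ) ∣ Nv G α := by
  have h1 : cyclotomic n ℤ ∣ hcomp G P Q := by
    rw [cyclotomic_eq_minpoly hζ hn]
    refine minpoly.isIntegrallyClosed_dvd (hζ.isIntegral hn) ?_
    rw [aeval_hcomp]
    have h2 : ∀ i ∈ Finset.range (G.natDegree + 1), (G.coeff i : ℂ) * aeval ζ P ^ i *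
        aeval ζ Q ^ (G.natDegree - i) = aeval ζ Q ^ G.natDegree * ((G.coeff i : ℂ) * t ^ i) := by
      intro i hi
      rw [Finset.mem_range] at hi
      have h3 : aeval ζ P = t * aeval ζ Q := by
        rw [ht]
        field_simp
      have h4 : aeval ζ Q ^ G.natDegree = aeval ζ Q ^ i * aeval ζ Q ^ (G.natDegree - i) := by
        rw [← pow_add]
        congr 1
        omega
      rw [h4, h3, mul_pow]
      ring
    rw [Finset.sum_congr rfl h2, ← Finset.mul_sum]
    have h5 : ∑ i ∈ Finset.range (G.natDegree + 1), (G.coeff i : ℂ) * t ^ i = aeval t G := by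
      rw [aeval_eq_sum_range]
      simp [zsmul_eq_mul]
    rw [h5, hGt, mul_zero]
  have h2 : aeval z (hcomp G P Q) = 0 := by
    obtain ⟨q, hq⟩ := h1
    rw [hq, map_mul]
    have h3 : aeval z (cyclotomic n ℤ) = 0 := by
      rw [aeval_def, ← eval_map, map_cyclotomic]
      exact hz
    rw [h3, zero_mul]
  have h3 : (α.num : k) * aeval z Q = (α.den : k) * aeval z P := by
    obtain ⟨q, hq⟩ := hh
    have h4 := congrArg (aeval z) hq
    rw [map_mul, hz0, zero_mul, map_sub, map_mul, map_mul, aeval_C, aeval_C, sub_eq_zero] at h4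
    simpa using h4
  have hρ : (ρ : k) ≠ 0 := fun h4 => hpρ ((CharP.intCast_eq_zero_iff k p _).1 h4)
  have hab' : aeval z a * aeval z P + aeval z b * aeval z Q = (ρ : k) := by
    have h4 := congrArg (aeval z) hab
    rw [map_add, map_mul, map_mul, aeval_C] at h4
    simpa using h4
  have hcop : (α.num : k) = 0 → (α.den : k) = 0 → False := by
    intro h4 h5
    have h6 : (p : ℤ) ∣ α.num := (CharP.intCast_eq_zero_iff k p _).1 h4
    have h7 : p ∣ α.den := (CharP.cast_eq_zero_iff k p _).1 h5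
    have h8 : p ∣ Nat.gcd α.num.natAbs α.den := Nat.dvd_gcd (Int.natCast_dvd.1 h6) h7
    rw [α.reduced] at h8
    exact hp.one_lt.ne' (Nat.dvd_one.1 h8)
  obtain ⟨l, hl, hlP, hlQ⟩ : ∃ l : k, l ≠ 0 ∧ aeval z P = l * (α.num : k) ∧
      aeval z Q = l * (α.den : k) := by
    by_cases hQz : aeval z Q = 0
    · have hPz : aeval z P ≠ 0 := by
        intro h4
        rw [h4, hQz, mul_zero, mul_zero, add_zero] at hab'
        exact hρ hab'.symm
      rw [hQz, mul_zero] at h3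
      have h5 : (α.den : k) = 0 := by
        rcases mul_eq_zero.1 h3.symm with h6 | h6
        · exact h6
        · exact absurd h6 hPz
      have h6 : (α.num : k) ≠ 0 := fun h7 => hcop h7 h5
      refine ⟨aeval z P / α.num, div_ne_zero hPz h6, ?_, ?_⟩
      · field_simp
      · rw [hQz, h5, mul_zero]
    · have h5 : (α.den : k) ≠ 0 := by
        intro h6
        rw [h6, zero_mul] at h3
        rcases mul_eq_zero.1 h3 with h7 | h7
        · exact hcop h7 h6
        · exact hQz h7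
      refine ⟨aeval z Q / α.den, div_ne_zero hQz h5, ?_, ?_⟩
      · field_simp
        linear_combination -h3
      · field_simp
  rw [aeval_hcomp] at h2
  have h4 : l ^ G.natDegree * ((Nv G α : ℤ) : k) = 0 := by
    rw [← h2, Nv, Int.cast_sum, Finset.mul_sum]
    refine Finset.sum_congr rfl fun i hi => ?_
    rw [Finset.mem_range] at hi
    have h5 : l ^ G.natDegree = l ^ i * l ^ (G.natDegree - i) := by
      rw [← pow_add]
      congr 1
      omega
    rw [h5, hlP, hlQ, mul_pow, mul_pow]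
    push_cast
    ring
  rcases mul_eq_zero.1 h4 with h5 | h5
  · exact absurd h5 (pow_ne_zero _ hl)
  · exact (CharP.intCast_eq_zero_iff k p _).1 h5

theorem near {P Q G h : ℤ[X]} {n : ℕ} (hn : 0 < n) {ζ t : ℂ} (hζ : IsPrimitiveRoot ζ n)
    (hQ : aeval ζ Q ≠ 0) (ht : t = aeval ζ P / aeval ζ Q) (hGt : aeval t G = 0) {a b : ℤ[X]}
    {ρ : ℤ} (hab : a * P + b * Q = C ρ) (α : ℚ) (hh : h ∣ C α.num * Q - C (α.den : ℤ) * P) (p : ℕ)
    (hp : p.Prime) (hpρ : ¬ (p : ℤ) ∣ ρ) (hd : (p : ℤ) ∣ resultant h (cyclotomic n ℤ)) :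
    (p : ℤ) ∣ Nv G α := by
  have : Fact p.Prime := ⟨hp⟩
  obtain ⟨z, hz, hz0⟩ := common_zero p hd
  exact near_k hn hζ hQ ht hGt hab α hh p hp hpρ z hz hz0

/-- `t = P (ζ) / Q (ζ)` for a root of unity `ζ`. -/
def IsValue (P Q : ℤ[X]) (t : ℂ) : Prop :=
  ∃ ζ : ℂ, (∃ n : ℕ, 0 < n ∧ ζ ^ n = 1) ∧ aeval ζ Q ≠ 0 ∧ t = aeval ζ P / aeval ζ Q

theorem alg_of_value (P Q : ℤ[X]) (t : ℂ) (h : IsValue P Q t) : IsAlgebraic ℤ t := by
  obtain ⟨ζ, ⟨n, hn, hζ⟩, -, rfl⟩ := h
  have h1 : IsIntegral ℤ ζ := by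
    refine ⟨X ^ n - C 1, monic_X_pow_sub_C 1 hn.ne', ?_⟩
    rw [eval₂_sub, eval₂_X_pow, hζ, eval₂_C, map_one, sub_self]
  have h2 : ∀ F : ℤ[X], IsIntegral ℤ (aeval ζ F) := fun F =>
    adjoin_le_integralClosure h1 (aeval_mem_adjoin_singleton ℤ ζ)
  rw [div_eq_mul_inv]
  exact (h2 P).isAlgebraic.mul (h2 Q).isAlgebraic.inv

/-- An algebraic number is a zero of an irreducible integral polynomial. -/
theorem exists_irr {t : ℂ} (ht : IsAlgebraic ℤ t) : ∃ G : ℤ[X], Irreducible G ∧ aeval t G = 0 := by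
  classical
  obtain ⟨F, hF0, hFt⟩ := ht
  obtain ⟨f, hf, u, hu⟩ := WfDvdMonoid.exists_factors F hF0
  have h1 : aeval t f.prod = 0 := by
    rw [← hu, map_mul] at hFt
    rcases mul_eq_zero.1 hFt with h | h
    · exact h
    · exfalso
      have h4 := (u.isUnit.map (aeval t : ℤ[X] →ₐ[ℤ] ℂ)).ne_zero
      exact h4 h
  rw [map_multiset_prod, Multiset.prod_eq_zero_iff, Multiset.mem_map] at h1
  obtain ⟨G, hG, hGt⟩ := h1
  exact ⟨G, hf G hG, hGt⟩

theorem large_value {P Q : ℤ[X]} {a b : ℤ[X]} {ρ : ℤ} (hρ : ρ ≠ 0) (hab : a * P + b * Q = C ρ)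
    (α : ℚ) (h1 : ∀ x : ℂ, ‖x‖ = 1 → aeval x P ≠ (α : ℂ) * aeval x Q)
    (h2 : ∃ x : ℂ, x ≠ 0 ∧ aeval x P = (α : ℂ) * aeval x Q) (D : ℕ) : ∃ N : ℕ, ∀ n : ℕ, N ≤ n →
      0 < n → ∀ ζ t : ℂ, IsPrimitiveRoot ζ n → aeval ζ Q ≠ 0 → t = aeval ζ P / aeval ζ Q →
      ∀ G : ℤ[X], aeval t G = 0 → ∃ p : ℕ, p.Prime ∧ D < p ∧ (p : ℤ) ∣ Nv G α := by
  set h : ℤ[X] := C α.num * Q - C (α.den : ℤ) * P with hh
  have hd0 : (α.den : ℂ) ≠ 0 := by exact_mod_cast α.den_ne_zero
  have hαd : (α : ℂ) * (α.den : ℂ) = (α.num : ℂ) := by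
    exact_mod_cast congrArg (Rat.cast : ℚ → ℂ) (Rat.mul_den_eq_num α)
  have hev : ∀ x : ℂ, aeval x h = (α.den : ℂ) * ((α : ℂ) * aeval x Q - aeval x P) := by
    intro x
    have h3 : aeval x h = (α.num : ℂ) * aeval x Q - (α.den : ℂ) * aeval x P := by
      rw [hh, map_sub, map_mul, map_mul, aeval_C, aeval_C]
      simp
    rw [h3, ← hαd]
    ring
  have hz : ∀ x : ℂ, aeval x h = 0 ↔ aeval x P = (α : ℂ) * aeval x Q := by
    intro x
    rw [hev]
    constructor
    · intro h3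
      rcases mul_eq_zero.1 h3 with h4 | h4
      · exact absurd h4 hd0
      · exact (sub_eq_zero.1 h4).symm
    · intro h3
      rw [h3, sub_self, mul_zero]
  have h0 : h ≠ 0 := by
    intro h3
    apply h1 1 norm_one
    rw [← hz, h3, map_zero]
  have hc : h.content ≠ 0 := fun h3 => h0 (content_eq_zero_iff.1 h3)
  have hp : ∀ x : ℂ, aeval x h.primPart = 0 ↔ aeval x h = 0 := by
    intro x
    have h3 : aeval x h = (h.content : ℂ) * aeval x h.primPart := by
      conv_lhs => rw [h.eq_C_content_mul_primPart]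
      rw [map_mul, aeval_C]
      rfl
    rw [h3, mul_eq_zero]
    constructor
    · exact fun h4 => Or.inr h4
    · rintro (h4 | h4)
      · exact absurd (by exact_mod_cast h4) hc
      · exact h4
  obtain ⟨N, hN⟩ := large_prime (h := h.primPart) h.isPrimitive_primPart
    (fun x hx h3 => h1 x hx ((hz x).1 ((hp x).1 h3)))
    (by
      obtain ⟨x, hx0, hx⟩ := h2
      exact ⟨x, hx0, (hp x).2 ((hz x).2 hx)⟩) (max D ρ.natAbs)
  refine ⟨N, fun n hn hn0 ζ t hζ hQ ht G hG => ?_⟩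
  obtain ⟨p, hpp, hpD, hd⟩ := hN n hn
  refine ⟨p, hpp, lt_of_le_of_lt (le_max_left _ _) hpD, ?_⟩
  refine near hn0 hζ hQ ht hG hab α (h.primPart_dvd) p hpp ?_ hd
  intro h3
  have h4 := Nat.le_of_dvd (Int.natAbs_pos.2 hρ) (Int.natCast_dvd.1 h3)
  exact absurd (lt_of_le_of_lt (le_max_right _ _) hpD) (not_lt.2 h4)

/-- For all but finitely many values `t` of the rational function `P / Q` at roots of unity all the
values of the minimal polynomial at the `α` have a large prime factor. -/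
theorem finite_badF (D : ℕ) {M L : ℕ} (hM : L ≤ M) (α : Fin M → ℚ) (P Q : ℤ[X])
    (hPQ : IsCoprime (P.map (Int.castRingHom ℚ)) (Q.map (Int.castRingHom ℚ)))
    (h1 : ∀ l, ∀ x : ℂ, ‖x‖ = 1 → aeval x P ≠ (α l : ℂ) * aeval x Q)
    (h2 : ∀ l, ∃ x : ℂ, x ≠ 0 ∧ aeval x P = (α l : ℂ) * aeval x Q) :
    {t : ℂ | IsValue P Q t ∧ ¬ ∃ f : Fin L → Fin M, Function.Injective f ∧
      ∃ G : ℤ[X], Irreducible G ∧ aeval t G = 0 ∧
      ∀ l, ∃ p : ℕ, p.Prime ∧ D < p ∧ (p : ℤ) ∣ Nv G (α (f l))}.Finite := by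
  classical
  obtain ⟨a, b, ρ, hρ, hab⟩ := bez hPQ
  choose N hN using fun l => large_value hρ hab (α l) (h1 l) (h2 l) D
  set N₀ : ℕ := Finset.univ.sup N with hN₀
  have hfin : (⋃ n ∈ Finset.range N₀, {ζ : ℂ | ζ ^ (n + 1) = 1}).Finite := by
    refine Set.Finite.biUnion (Finset.finite_toSet _) fun n _ => ?_
    have h3 : (X ^ (n + 1) - 1 : ℂ[X]) ≠ 0 := by
      rw [← C_1]
      exact X_pow_sub_C_ne_zero (by omega) 1
    refine ((X ^ (n + 1) - 1 : ℂ[X]).roots.toFinset.finite_toSet).subset fun t ht => ?_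
    rw [Finset.mem_coe, Multiset.mem_toFinset, mem_roots h3, IsRoot.def, eval_sub, eval_pow, eval_X,
      eval_one]
    exact sub_eq_zero.2 ht
  refine (hfin.image fun ζ => aeval ζ P / aeval ζ Q).subset ?_
  rintro t ⟨hval, hbad⟩
  obtain ⟨G, hG, hGt⟩ := exists_irr (alg_of_value P Q t hval)
  obtain ⟨ζ, ⟨m, hm, hζm⟩, hQ, ht⟩ := hval
  have hprim : IsPrimitiveRoot ζ (orderOf ζ) := IsPrimitiveRoot.orderOf _
  have hpos : 0 < orderOf ζ := orderOf_pos_iff.2 (isOfFinOrder_iff_pow_eq_one.2 ⟨m, hm, hζm⟩)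
  by_cases hlt : orderOf ζ ≤ N₀
  · refine ⟨ζ, Set.mem_biUnion (Finset.mem_coe.2 (Finset.mem_range.2
      (show orderOf ζ - 1 < N₀ by omega))) ?_, ht.symm⟩
    show ζ ^ (orderOf ζ - 1 + 1) = 1
    rw [Nat.sub_add_cancel hpos]
    exact pow_orderOf_eq_one _
  exfalso
  apply hbad
  refine ⟨Fin.castLE hM, Fin.castLE_injective hM, G, hG, hGt, fun l => ?_⟩
  refine hN (Fin.castLE hM l) (orderOf ζ) ?_ hpos ζ t hprim hQ ht G hGt
  have h3 : N (Fin.castLE hM l) ≤ N₀ := Finset.le_sup (Finset.mem_univ _)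
  omega

end Pool.Agent.V1138.FZ
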