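import Mathlib
import Pool.Agent.V1138.FZ.Many

/-!
# Example: the numbers `2 cos (2 π ρ)`
-/

set_option autoImplicit false

namespace Pool.Agent.V1138.FZ

open Polynomial

/-- `X ^ 2 + 1` and `X` have no common factor. -/
theorem cheb_coprime : IsCoprime ((X ^ 2 + 1 : ℤ[X]).map (Int.castRingHom ℚ))
    ((X : ℤ[X]).map (Int.castRingHom ℚ)) := by
  refine ⟨1, -X, ?_⟩
  simp only [Polynomial.map_add, Polynomial.map_pow, map_X, Polynomial.map_one]
  ring

/-- The numbers `2 cos (2 π ρ)`, `ρ` rational, are values of `X + 1 / X` at roots of unity. -/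
theorem cheb_value (a : ℤ) (b : ℕ) (hb : 0 < b) :
    IsValue (X ^ 2 + 1) X ((2 * Real.cos (2 * Real.pi * (a / b)) : ℝ) : ℂ) := by
  refine ⟨Complex.exp (2 * Real.pi * (a / b) * Complex.I), ⟨b, hb, ?_⟩, ?_, ?_⟩
  · rw [← Complex.exp_nat_mul, Complex.exp_eq_one_iff]
    refine ⟨a, ?_⟩
    have hb' : (b : ℂ) ≠ 0 := by exact_mod_cast hb.ne'
    field_simp
  · rw [aeval_X]
    exact Complex.exp_ne_zero _
  · have h0 := Complex.exp_ne_zero (2 * Real.pi * (a / b) * Complex.I)
    rw [map_add, map_pow, aeval_X, map_one]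
    push_cast
    rw [Complex.two_cos, eq_div_iff h0, add_mul, ← Complex.exp_add, ← Complex.exp_add, sq,
      ← Complex.exp_add]
    congr 1
    rw [← Complex.exp_zero]
    congr 1
    ring

/-- The rational numbers `α` with `|α| > 2` are admissible for `X + 1 / X`. -/
theorem cheb_admissible (α : ℚ) (hα : 2 < |α|) :
    (∀ x : ℂ, ‖x‖ = 1 → aeval x (X ^ 2 + 1 : ℤ[X]) ≠ (α : ℂ) * aeval x (X : ℤ[X])) ∧
      ∃ x : ℂ, x ≠ 0 ∧ aeval x (X ^ 2 + 1 : ℤ[X]) = (α : ℂ) * aeval x (X : ℤ[X]) := by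
  constructor
  · intro x hx he
    rw [map_add, map_pow, aeval_X, map_one] at he
    have h1 := congrArg norm he
    rw [norm_mul, hx, mul_one, Complex.norm_ratCast] at h1
    have h2 : ‖x ^ 2 + 1‖ ≤ 2 := by
      refine (norm_add_le _ _).trans ?_
      rw [norm_pow, hx, one_pow, norm_one]
      norm_num
    rw [h1] at h2
    have h3 : (2 : ℝ) < |(α : ℝ)| := by exact_mod_cast hα
    linarith
  · obtain ⟨x, hx⟩ := IsAlgClosed.exists_root (X ^ 2 - C (α : ℂ) * X + 1 : ℂ[X]) (by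
      have h1 : (X ^ 2 - C (α : ℂ) * X + 1 : ℂ[X]).degree = 2 := by compute_degree!
      rw [h1]
      norm_num)
    have h1 : x ^ 2 - (α : ℂ) * x + 1 = 0 := by
      rw [IsRoot.def] at hx
      simpa using hx
    refine ⟨x, ?_, ?_⟩
    · rintro rfl
      simp at h1
    · rw [map_add, map_pow, aeval_X, map_one]
      linear_combination h1

end Pool.Agent.V1138.FZ
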